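import Mathlib
import Pool.Agent.Helper50.Drop.Main
import Pool.Agent.Helper80.Drop.Bridge

/-!
# Strict drop of minimax levels under integer multiples (MP_51c806_gt, Q1, full answer)

There is a class `X` in `H_3(ΛS⁴; ℤ)` such that the critical level of `8 X` stays bounded and
positive while the critical level of `X` is arbitrarily large, for suitable smooth Riemannian metrics
on `S⁴`.

The definitions are in `Pool.Agent.Helper80.Drop.Stmt`.

The example. `S⁴` is the unit sphere of the traceless symmetric `3 × 3` matrices, `H` is Cartan's
isoparametric cubic form, and the metrics are `g₀ + R² dH ⊗ dH`. The loops `t ↦ exp(2πt v) y` (`v` a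
unit vector of `so(3)`) stay in the levels of `H`, so their lengths do not depend on `R`; they form an
explicit cycle `z`. Moves relative to the complement of a marked point show that `z` is homologous to
`8 X`. If `X` is represented by a cycle of loops along which `H` varies by less than `1/2` then a
cochain of degree `4` of the form `δχ ∪ b ∪ b ∪ a` (where `a`, `b` are the mod `2` classes of the
eigenlines of the matrices) has even pairing with `X`, because `b ∪ b` is half of the coboundary of an
integral cochain and the loop direction contributes the holonomy of `a` only; but the pairing with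
`X` is `1`. The pairing of `8 X` with an integral lift is `± 8`, whereas cycles of short loops pair to
`0`.
-/

namespace Pool.Agent.Results.MP_51c806_gt.StrictDrop

open Pool.Agent.Helper80.Drop.Stmt

/-- **Strict drop of minimax levels.** There are a cycle `X` (a class in `H_3(ΛS⁴; ℤ)`) and a
constant `B` such that for every `C` there is a smooth Riemannian metric `g` on `S⁴` with
`0 < cr(8 X) ≤ B` and `C < cr(X)`. -/
theorem result : ∃ X : Cube (Loop 4) 3 →₀ ℤ, IsCycle Set.univ X ∧ ∃ B : ℝ, ∀ C : ℝ,
    ∃ g : RMetric 4, 0 < crit g ((8 : ℤ) • X) ∧ crit g ((8 : ℤ) • X) ≤ B ∧ C < crit g X :=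
  Pool.Agent.Helper80.Drop.Bridge.bridge Pool.Agent.Helper50.Drop.main

end Pool.Agent.Results.MP_51c806_gt.StrictDrop
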